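import Pool.Agent.H41.Cg3

set_option autoImplicit false

open Pool.Agent.H41.Cg
open scoped NNReal ENNReal

theorem Pool.Agent.Results.MP_f9d380_an.Q1No.result :
    ∃ (X : Type) (_ : NormedAddCommGroup X) (_ : NormedSpace ℝ X) (_ : CompleteSpace X)
      (x : ℕ → X) (xs : ℕ → X →L[ℝ] ℝ), IsMBasis x xs ∧
      ∀ C : ℝ≥0, ∃ m : ℕ, 1 ≤ m ∧ C * Lch norm x (fun n => xs n) m <
        min (gm norm x (fun n => xs n) m) (lam norm x (fun n => xs n) m) :=
  q1_no
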