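import Pool.Agent.H41.Cg4

set_option autoImplicit false

open Pool.Agent.H41.Cg
open scoped NNReal ENNReal

theorem Pool.Agent.Results.MP_f9d380_an.Q2Basis.result :
    ∀ (𝕜 : Type) [RCLike 𝕜] (p M K : ℝ), 0 < p → ∃ C : ℝ≥0,
      ∀ (X : Type) [AddCommGroup X] [Module 𝕜 X] (N : X → ℝ) (x : ℕ → X)
        (xs : ℕ → X →ₗ[𝕜] 𝕜), IsPNorm 𝕜 p N → IsBddSystem N x xs M K → ∀ m : ℕ,
        max (gm N x (fun n => xs n) m) (lam N x (fun n => xs n) m) ≤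
          C * Lch N x (fun n => xs n) m :=
  fun 𝕜 _ p M K hp => q2_basis 𝕜 p M K hp
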