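import Pool.Agent.H41.Cg3

set_option autoImplicit false

open Pool.Agent.H41.Cg
open scoped NNReal ENNReal

theorem Pool.Agent.Results.MP_f9d380_an.Q2No.result :
    ∀ C : ℝ≥0, ∃ (X : Type) (_ : NormedAddCommGroup X) (_ : NormedSpace ℝ X)
      (_ : CompleteSpace X) (x : ℕ → X) (xs : ℕ → X →L[ℝ] ℝ), IsSchauder x xs ∧
      ∃ m : ℕ, 1 ≤ m ∧ C * Lch norm x (fun n => xs n) m <
        min (gm norm x (fun n => xs n) m) (lam norm x (fun n => xs n) m) :=
  q2_uniform_no
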